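import Pool.Agent.K1H61.Bab.Five

/-!
# Babai's conjecture for the groups `Z_9^r` and `Z_25^r`

The Sidon sets are (half of) the set of the Teichmüller representatives of the Galois ring
`GR(9, r)`, and half of the Teichmüller representatives `[a]` of `GR(25, r)` with `l(a²) = t`, where
`l` is a linear functional of `𝔽_{5^r}` over `𝔽_5` and `t ≠ 0`.
-/

set_option autoImplicit false

namespace Pool.Agent.Results.MP_644501_co.HomocyclicSquares

open Finset Pool.Agent.K1H61.Bab

theorem sqrt_card {G : Type} [AddCommGroup G] [Fintype G] (p r : ℕ) (hp : p ≠ 0)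
    (e : G ≃+ (Fin r → ZMod (p ^ 2))) : Real.sqrt (Fintype.card G : ℝ) = (p : ℝ) ^ r := by
  haveI : NeZero (p ^ 2) := ⟨pow_ne_zero 2 hp⟩
  have h1 : Fintype.card G = (p ^ r) ^ 2 := by
    rw [Fintype.card_congr e.toEquiv, Fintype.card_fun, ZMod.card, Fintype.card_fin]
    ring
  rw [h1]
  push_cast
  exact Real.sqrt_sq (by positivity)

theorem result (p : ℕ) (hp : p = 3 ∨ p = 5) (r : ℕ) (G : Type) [AddCommGroup G] [Fintype G]
    (hG : Nonempty (G ≃+ (Fin r → ZMod (p ^ 2)))) :
    ∃ A : Finset G,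
      (∀ a ∈ A, ∀ b ∈ A, ∀ c ∈ A, ∀ d ∈ A,
        a + b = c + d → (a = c ∧ b = d) ∨ (a = d ∧ b = c)) ∧
      (p = 3 → 1 / 2 * Real.sqrt (Fintype.card G : ℝ) ≤ (A.card : ℝ)) ∧
      (p = 5 → 3 / 40 * Real.sqrt (Fintype.card G : ℝ) ≤ (A.card : ℝ)) := by
  obtain ⟨e⟩ := hG
  by_cases hr : r = 0
  · refine ⟨{0}, ?_, ?_⟩
    · intro a ha b hb c hc d hd _
      rw [mem_singleton] at ha hb hc hd
      left
      rw [ha, hb, hc, hd]
      exact ⟨rfl, rfl⟩
    · rw [card_singleton, sqrt_card p r (by omega) e, hr, pow_zero]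
      constructor <;> intro _ <;> norm_num
  · rcases hp with hp | hp
    · subst hp
      obtain ⟨A, hA, hc⟩ := three r hr e
      refine ⟨A, hA, fun _ => ?_, fun h => by omega⟩
      rw [sqrt_card 3 r (by omega) e]
      have h1 : (3 : ℝ) ^ r ≤ 2 * (A.card : ℝ) := by exact_mod_cast hc
      push_cast
      linarith
    · subst hp
      obtain ⟨A, hA, hc⟩ := five r hr e
      refine ⟨A, hA, fun h => by omega, fun _ => ?_⟩
      rw [sqrt_card 5 r (by omega) e]
      have h1 : 3 * (5 : ℝ) ^ r ≤ 40 * (A.card : ℝ) := by exact_mod_cast hc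
      push_cast
      linarith

end Pool.Agent.Results.MP_644501_co.HomocyclicSquares
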